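import Pool.Agent.Work.MP_6079fc_an.Main

/-!
Local membership with uniform bounds on all the balls `B(s, ε δ(s))`, for every `ε > 0`, does not imply
membership in the submodule of `𝒪(δ)^q` generated by `k ≥ 2` tuples, in any dimension `n ≥ 1`.
-/

set_option autoImplicit false

namespace Pool.Agent.Results.MP_6079fc_an.ZeroFreeGenerators

open Pool.Agent.Work.MP_6079fc_an

theorem result (n q k : ℕ) (hn : 1 ≤ n) (hq : 1 ≤ q) (hk : 2 ≤ k) :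
    ∃ (δ : EuclideanSpace ℂ (Fin n) → ℝ) (f : Fin k → Fin q → EuclideanSpace ℂ (Fin n) → ℂ)
      (g : Fin q → EuclideanSpace ℂ (Fin n) → ℂ),
      IsWeight δ ∧ (∀ s, 0 < δ s) ∧ (∀ i j, MemO δ (f i j)) ∧ (∀ i j s, f i j s ≠ 0) ∧
      (∀ j, MemO δ (g j)) ∧
      (∀ ε : ℝ, 0 < ε → ∃ M : ℝ, ∀ s, ∃ u : Fin k → EuclideanSpace ℂ (Fin n) → ℂ,
        (∀ i, DifferentiableOn ℂ (u i) (Metric.ball s (ε * δ s))) ∧
        (∀ i, ∀ z ∈ Metric.ball s (ε * δ s), ‖u i z‖ < M) ∧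
        ∀ j, ∀ z ∈ Metric.ball s (ε * δ s), g j z = ∑ i, u i z * f i j z) ∧
      ¬ ∃ v : Fin k → EuclideanSpace ℂ (Fin n) → ℂ,
        (∀ i, MemO δ (v i)) ∧ ∀ j s, g j s = ∑ i, v i s * f i j s :=
  main n q k hn hq hk

end Pool.Agent.Results.MP_6079fc_an.ZeroFreeGenerators
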